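import Pool.Agent.KS6_54.SFX.Exp2
import Pool.Graph.R_seed8.W823.SFD.Tail

/-!
# Scale-free percolation: `d_L (x, y) - (V_x + V_y) → 0` almost surely

Scale-free percolation on `ℤ^d` with regularly varying vertex-weights and arbitrary edge-weights in
the explosive regime. Almost surely all explosion times `V_x` are finite, `d_L (x, y) ≤ V_x + V_y`
for all vertices `x`, `y` (the question), and `d_L (x, y) - (V_x + V_y) → 0` as `‖y‖ → ∞` for every
vertex `x` (the consequence conjectured in the problem; known before was the lower bound in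
probability).

Proof of the almost sure lower bound. Suppose that with positive probability `V_z > d (x, z) + ε`
for infinitely many `z`. There is a vertex `y₀` with a small explosion time; resample the pair
`{x, y₀}` so that it is joined by an edge of small weight. Then all almost optimal explosion paths
of these infinitely many `z` pass near `x`, and the points at which the explosion time falls below a
certain level on these paths are all in one finite set. This contradicts the mass transport
principle.
-/

set_option autoImplicit false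

namespace Pool.Agent.Results.MP_3c35f6_pr.AsymptoticEquality

open MeasureTheory ProbabilityTheory Filter Pool.Agent.W823.SFP Pool.Agent.W823.SFD

/-- Almost surely: (1) all explosion times are finite, and are the limits of the `τ_n (x)`;
(2) `d_L (x, y) ≤ V_x + V_y` for all `x`, `y`; (3) for every `x` the difference
`d_L (x, y) - (V_x + V_y)` tends to `0` as `‖y‖ → ∞`. -/
theorem result (d : ℕ) (hd : 1 ≤ d) (α lam τ : ℝ) (hα : (d : ℝ) < α) (hlam : 0 < lam)
    (hτ : 1 < τ) (hγ1 : 1 < α * (τ - 1) / d) (hγ2 : α * (τ - 1) / d < 2)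
    -- the law of the vertex-weights
    (μW : Measure ℝ) (hW : IsProbabilityMeasure μW) (hone : μW (Set.Ici 1) = 1)
    (hreg : RegVar μW (τ - 1))
    -- the law of the edge-weights
    (μL : Measure ℝ) (hL : IsProbabilityMeasure μL) (hpos : μL (Set.Iio 0) = 0)
    (hI : IL μL < ⊤) :
    -- the joint law is a probability measure
    IsProbabilityMeasure (law d μW μL) ∧
    ∀ᵐ ω ∂(law d μW μL),
      (∀ x : Site d, Tendsto (tau α lam ω x) atTop (nhds (expl α lam ω x)) ∧
        expl α lam ω x < ⊤) ∧
      (∀ x y : Site d, dL α lam ω x y ≤ expl α lam ω x + expl α lam ω y) ∧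
      (∀ x : Site d, ∀ ε : ℝ, 0 < ε → ∃ R : ℝ, ∀ y : Site d, R < nrm y →
        |(dL α lam ω x y).toReal - ((expl α lam ω x).toReal + (expl α lam ω y).toReal)| < ε) := by
  have hd1 : (0 : ℝ) < d := by
    have : (1 : ℝ) ≤ d := by exact_mod_cast hd
    linarith
  have hβ : 0 < τ - 1 := by linarith
  have h : HypG d α lam (τ - 1) μW μL :=
    { hd := hd
      hα := hα
      hlam := hlam
      hβ := hβ
      hγ1 := by rwa [lt_div_iff₀ hd1, one_mul] at hγ1
      hγ2 := by rwa [div_lt_iff₀ hd1] at hγ2
      probW := hW
      probL := hL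
      one := hone
      lo := lo_of hβ hreg
      mo := fun κ h0 h1 => mo_of hone hreg κ h0 h1
      posL := posL_of hI }
  have hloc := Pool.Agent.KS6_54.SFX.ae_locfin h
  have hfin := Pool.Agent.KS6_54.SFX.ae_V_ne_top (lam := lam) h hpos hI
  refine ⟨?_, ?_⟩
  · have := prob_marg (d := d) hW hL
    unfold law
    infer_instance
  · filter_upwards [main h, Pool.Agent.KS6_54.SFX.ae_lower h hloc hfin, hfin] with ω hup hlow hV
    have hVx : ∀ x : Site d, expl α lam ω x ≠ ⊤ := fun x => by
      rw [Pool.Agent.KS6_54.SFX.expl_eo]; exact hV x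
    refine ⟨fun x => ⟨?_, lt_top_iff_ne_top.2 (hVx x)⟩, hup, fun x ε hε => ?_⟩
    · have hmono : Monotone (tau α lam ω x) := by
        intro m n hmn
        unfold tau
        apply sInf_le_sInf
        intro t ht
        have : ((m : ℕ) : ℕ∞) ≤ (n : ℕ∞) := by exact_mod_cast hmn
        exact this.trans ht
      exact tendsto_atTop_iSup hmono
    · have hfinite := hlow x (ε / 2) (by positivity)
      obtain ⟨R, hR⟩ := (hfinite.image nrm).bddAbove
      refine ⟨R, fun y hy => ?_⟩
      have hnot : y ∉ {y | dL α lam ω x y + ENNReal.ofReal (ε / 2) <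
          expl α lam ω x + expl α lam ω y} := by
        intro hmem
        exact absurd (hR ⟨y, hmem, rfl⟩) (not_le.2 hy)
      have h1 : expl α lam ω x + expl α lam ω y ≤ dL α lam ω x y + ENNReal.ofReal (ε / 2) :=
        not_lt.1 hnot
      have hs : expl α lam ω x + expl α lam ω y ≠ ⊤ := ENNReal.add_ne_top.2 ⟨hVx x, hVx y⟩
      have hdt : dL α lam ω x y ≠ ⊤ := ne_top_of_le_ne_top hs (hup x y)
      have h2 := ENNReal.toReal_mono hs (hup x y)
      have h3 := ENNReal.toReal_mono (ENNReal.add_ne_top.2 ⟨hdt, ENNReal.ofReal_ne_top⟩) h1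
      rw [ENNReal.toReal_add (hVx x) (hVx y)] at h2 h3
      rw [ENNReal.toReal_add hdt ENNReal.ofReal_ne_top, ENNReal.toReal_ofReal (by positivity)] at h3
      rw [abs_lt]
      constructor <;> linarith

end Pool.Agent.Results.MP_3c35f6_pr.AsymptoticEquality
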